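import Mathlib
import Pool.Agent.Y298.EX.Stm
import Pool.Agent.Y298.CA.Low
import Pool.Agent.Y674.CA.Lya

/-!
# Project EX: the choice of the times

Adapted from the first part of theorem `lower` in `Pool.Agent.Y298.CA.Low` (helper298).
-/

set_option autoImplicit false

open Set Filter Metric MeasureTheory Topology

namespace Pool.Agent.Y474.EX

open Pool.Agent.TH279.MD Pool.Agent.Y298.SH Pool.Agent.Y298.SH.CD
open Pool.Agent.Y298.CA (Lyap first_ge steps)
open Pool.Agent.Y298.EX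

/-- The choice of the times. -/
theorem sel : S_SEL := by
  intro d χ c₀ C₁ lam hd h hc ε hε
  have hdR : (2 : ℝ) ≤ d := by exact_mod_cast hd
  have hd0 : 0 < (d : ℝ) := by linarith
  obtain ⟨-, hlya⟩ := Pool.Agent.Y674.CA.lya d χ c₀ hd h
  have hχ : 0 < χ := h.1
  obtain ⟨L, hL⟩ : ∃ L : ℝ, L = LL d := ⟨_, rfl⟩
  have hL' : L = d * 3 ^ (d - 1) + 1 := hL
  have hL3 : (1 : ℝ) ≤ 3 ^ (d - 1) := one_le_pow₀ (by norm_num)
  have hL2 : 2 ≤ L := by
    rw [hL']
    nlinarith
  have hL0 : 0 < L := by linarith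
  have hlL : 0 < Real.log L := Real.log_pos (by linarith)
  obtain ⟨e, he⟩ : ∃ e : ℝ, e = min ε 1 := ⟨_, rfl⟩
  have he0 : 0 < e := by
    rw [he]
    exact lt_min hε one_pos
  have he1 : e ≤ 1 := by
    rw [he]
    exact min_le_right _ _
  have heε : e ≤ ε := by
    rw [he]
    exact min_le_left _ _
  set ε₃ : ℝ := e / (4 * Real.log L) with hε₃
  have hε₃0 : 0 < ε₃ := by positivity
  have hε₃L : ε₃ * Real.log L = e / 4 := by
    rw [hε₃]
    field_simp
  set ε₁ : ℝ := min (1 / (2 * d)) (ε₃ * χ / 3) with hε₁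
  have hε₁0 : 0 < ε₁ := lt_min (by positivity) (by positivity)
  have hε₁d : ε₁ * d ≤ 1 / 2 := by
    have h1 : ε₁ ≤ 1 / (2 * d) := min_le_left _ _
    calc ε₁ * d ≤ 1 / (2 * d) * d := by gcongr
      _ = 1 / 2 := by field_simp
  have hε₁h : ε₁ ≤ 1 / 2 := by nlinarith
  have hε₁3 : 3 * ε₁ / χ ≤ ε₃ := by
    have h1 : ε₁ ≤ ε₃ * χ / 3 := min_le_right _ _
    rw [div_le_iff₀ hχ]
    linarith
  set ε₂ : ℝ := ε₁ * χ / 8 with hε₂
  have hε₂0 : 0 < ε₂ := by positivity
  have hε₂χ : ε₂ ≤ χ / 2 := by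
    rw [hε₂]
    nlinarith
  obtain ⟨C₂, hC₂1, hC₂⟩ := hlya ε₂ hε₂0
  have hC₂0 : 0 < C₂ := by linarith
  have hlC₂ : 0 ≤ Real.log C₂ := Real.log_nonneg hC₂1
  set θ : ℝ := Real.exp ε₂ with hθ
  have hθ1 : 1 < θ := Real.one_lt_exp_iff.mpr hε₂0
  refine ⟨θ, hθ1, ?_⟩
  intro B CS J hB0 hCS
  set C₃ : ℝ := 1 + 3 / χ * Real.log C₂ with hC₃
  have hC₃0 : 0 ≤ C₃ := by positivity
  set c₆ : ℝ := Real.log (12 * ((d : ℝ) ^ 2 * 3 ^ d)) + 2 * C₃ * Real.log L +
    d * Real.log C₂ with hc₆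
  -- the threshold
  have hlin : ∀ (a b : ℝ), 0 < a → ∀ᶠ l : ℝ in atTop, b < a * l := by
    intro a b ha
    exact (tendsto_id.const_mul_atTop ha).eventually_gt_atTop b
  have hev : ∀ᶠ l : ℝ in atTop, Real.log (B * C₂) + ε₁ / 2 * Real.log C₂ < ε₁ / 2 * l ∧
      Real.log CS < ε₁ * l ∧ J * Real.log (2 * d) < 1 / 2 * l ∧
      Real.log (2 * d) + (C₃ + 1) * Real.log L < 3 / 4 * e * l ∧ 0 < 1 * l ∧
      Real.log 4 + C₃ * Real.log L < 3 / 4 * l ∧ c₆ < 5 / 16 * l :=
    (hlin _ _ (by positivity)).and ((hlin _ _ hε₁0).and ((hlin _ _ (by norm_num)).and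
      ((hlin _ _ (by positivity)).and ((hlin _ _ one_pos).and ((hlin _ _ (by norm_num)).and
      (hlin _ _ (by norm_num)))))))
  obtain ⟨l₀, hl₀⟩ := eventually_atTop.mp hev
  refine ⟨Real.exp (-(max l₀ 1)), Real.exp_pos _, ?_, ?_⟩
  · apply Real.exp_le_one_iff.mpr
    have := le_max_right l₀ 1
    linarith
  intro r hr0 hrr
  set l : ℝ := -Real.log r with hl
  have hrl : r = Real.exp (-l) := by rw [hl, neg_neg, Real.exp_log hr0]
  have hll₀ : l₀ ≤ l := by
    have h1 : Real.log r ≤ -(max l₀ 1) := by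
      rw [← Real.log_exp (-(max l₀ 1))]
      exact Real.log_le_log hr0 hrr
    have := le_max_left l₀ 1
    linarith
  obtain ⟨t1, t2, t3, t4, t5, t6, t7⟩ := hl₀ l hll₀
  have hl0 : 0 < l := by linarith
  have hr1 : r ≤ 1 := by
    rw [hrl]
    apply Real.exp_le_one_iff.mpr
    linarith
  -- unboundedness of the derivatives
  have hunb : ∀ X : ℝ, ∃ n, X ≤ Pd d c₀ n := by
    intro X
    obtain ⟨n, hn⟩ := pow_unbounded_of_one_lt (C₁ * X) hc.lam1
    refine ⟨n, ?_⟩
    have h1 := hc.exp n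
    have h2 : C₁ * X < C₁ * Pd d c₀ n := lt_of_lt_of_le hn h1
    have h3 : 0 < C₁ := by linarith [hc.C1]
    exact (lt_of_mul_lt_mul_left h2 h3.le).le
  obtain ⟨k, hk1, hk2⟩ := first_ge (hunb (Real.exp ((1 - ε₁) * l)))
  obtain ⟨N, hN1, hN2⟩ := first_ge (hunb (Real.exp ((1 + ε₁) * l)))
  have hkN : k ≤ N := by
    by_contra hcon
    rw [not_le] at hcon
    have h1 := hk2 N hcon
    have h2 : Real.exp ((1 - ε₁) * l) ≤ Real.exp ((1 + ε₁) * l) := by
      apply Real.exp_le_exp.mpr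
      exact mul_le_mul_of_nonneg_right (by linarith) hl0.le
    linarith
  have hk0 : 0 < k := by
    by_contra hcon
    have h1 : k = 0 := by omega
    rw [h1, Pd_zero] at hk1
    have h2 : 1 < Real.exp ((1 - ε₁) * l) := by
      rw [Real.one_lt_exp_iff]
      apply mul_pos _ hl0
      linarith
    linarith
  -- the upper bound of the derivatives up to `k`
  set G : ℝ := 2 * d * Real.exp l with hG
  have hel : 1 ≤ Real.exp l := Real.one_le_exp hl0.le
  have hG1 : 1 ≤ G := by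
    rw [hG]
    exact one_le_mul_of_one_le_of_one_le (by linarith) hel
  have hG0 : 0 < G := by linarith
  have hPG' : ∀ j < k, Pd d c₀ j ≤ Real.exp l := by
    intro j hj
    refine (hk2 j hj).le.trans ?_
    apply Real.exp_le_exp.mpr
    exact mul_le_of_le_one_left hl0.le (by linarith)
  have hPG : ∀ j ≤ k, Pd d c₀ j ≤ G := by
    intro j hj
    rcases hj.lt_or_eq with h1 | h1
    · refine (hPG' j h1).trans ?_
      rw [hG]
      exact le_mul_of_one_le_left (Real.exp_pos _).le (by linarith)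
    · obtain ⟨i, hi⟩ : ∃ i, k = i + 1 := ⟨k - 1, by omega⟩
      rw [h1, hi, Pd_succ]
      have h2 := hPG' i (by omega)
      have h3 := hc.bd' i
      have h4 := (hc.Pd_pos i).le
      calc d * ‖zz d c₀ i‖ ^ (d - 1) * Pd d c₀ i ≤ d * 2 * Real.exp l := by gcongr
        _ = G := by rw [hG]; ring
  -- the passage
  have hpass : Pass d B θ r c₀ k := by
    intro j hj
    obtain ⟨g1, -, g3⟩ := hC₂ j
    have h1 := hk2 j hj
    have h2 : (χ - ε₂) * j ≤ Real.log C₂ + (1 - ε₁) * l := by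
      have h3 : Real.exp ((χ - ε₂) * j) ≤ Real.exp (Real.log C₂ + (1 - ε₁) * l) := by
        rw [Real.exp_add, Real.exp_log hC₂0]
        exact g1.trans (by gcongr)
      exact Real.exp_le_exp.mp h3
    have h4 : χ / 2 * j ≤ Real.log C₂ + l := by
      have h5 : χ / 2 * j ≤ (χ - ε₂) * j := by
        gcongr
        linarith
      have h6 := mul_pos hε₁0 hl0
      linarith
    have h6 : 2 * ε₂ * j ≤ ε₁ / 2 * (Real.log C₂ + l) := by
      calc 2 * ε₂ * j = ε₁ / 2 * (χ / 2 * j) := by rw [hε₂]; ring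
        _ ≤ _ := by gcongr
    have h7 : B * C₂ * Real.exp (2 * ε₂ * j) ≤ Real.exp (ε₁ * l) := by
      calc B * C₂ * Real.exp (2 * ε₂ * j) = Real.exp (Real.log (B * C₂) + 2 * ε₂ * j) := by
            rw [Real.exp_add, Real.exp_log (by positivity)]
        _ ≤ _ := by
            apply Real.exp_le_exp.mpr
            linarith
    have h8 : θ ^ j = Real.exp (ε₂ * j) := by
      rw [hθ, ← Real.exp_nat_mul, mul_comm]
    have h9 : B * θ ^ j * r * Pd d c₀ j * (C₂ * Real.exp (ε₂ * j)) ≤ 1 := by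
      calc B * θ ^ j * r * Pd d c₀ j * (C₂ * Real.exp (ε₂ * j))
          ≤ B * θ ^ j * r * Real.exp ((1 - ε₁) * l) * (C₂ * Real.exp (ε₂ * j)) := by gcongr
        _ = (B * C₂ * (Real.exp (ε₂ * j) * Real.exp (ε₂ * j))) *
            (Real.exp (-l) * Real.exp ((1 - ε₁) * l)) := by
            rw [h8, hrl]
            ring
        _ = (B * C₂ * Real.exp (2 * ε₂ * j)) * Real.exp (-(ε₁ * l)) := by
            rw [← Real.exp_add, ← Real.exp_add]
            congr 2
            · congr 1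
              ring
            · ring
        _ ≤ Real.exp (ε₁ * l) * Real.exp (-(ε₁ * l)) := by gcongr
        _ = 1 := by rw [← Real.exp_add]; simp
    have h10 : 0 < C₂ * Real.exp (ε₂ * j) := by positivity
    refine le_of_mul_le_mul_right ?_ h10
    linarith
  -- the number of additional steps
  obtain ⟨m, hm⟩ : ∃ m : ℕ, m = N - k := ⟨_, rfl⟩
  have hkm : k + m = N := by omega
  have hNl : (χ - ε₂) * ((N : ℝ) - 1) ≤ Real.log C₂ + (1 + ε₁) * l := by
    obtain ⟨i, hi⟩ : ∃ i, N = i + 1 := ⟨N - 1, by omega⟩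
    have h2 := hN2 i (by omega)
    obtain ⟨g1, -, -⟩ := hC₂ i
    have h3 : Real.exp ((χ - ε₂) * i) ≤ Real.exp (Real.log C₂ + (1 + ε₁) * l) := by
      rw [Real.exp_add, Real.exp_log hC₂0]
      exact g1.trans (by gcongr)
    have h4 := Real.exp_le_exp.mp h3
    rw [hi]
    push_cast
    rw [add_sub_cancel_right]
    exact h4
  have hmle : (m : ℝ) ≤ C₃ + ε₃ * l := by
    have h2 : (1 - ε₁) * l - Real.log C₂ ≤ (χ + ε₂) * k := by
      obtain ⟨-, g2, -⟩ := hC₂ k
      have h3 : Real.exp ((1 - ε₁) * l) ≤ Real.exp (Real.log C₂ + (χ + ε₂) * k) := by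
        rw [Real.exp_add, Real.exp_log hC₂0]
        exact hk1.trans g2
      have h4 := Real.exp_le_exp.mp h3
      linarith
    have h3 := steps hχ hε₁0 hε₁h hε₂0 le_rfl hl0.le hlC₂ hNl h2
    have h4 : (m : ℝ) = (N : ℝ) - k := by
      rw [hm, Nat.cast_sub hkN]
    rw [h4]
    refine h3.trans ?_
    rw [hC₃]
    gcongr
  have hmL : (m : ℝ) * Real.log L ≤ C₃ * Real.log L + e / 4 * l := by
    have h1 : (m : ℝ) * Real.log L ≤ (C₃ + ε₃ * l) * Real.log L := by gcongr
    have h2 : (C₃ + ε₃ * l) * Real.log L = C₃ * Real.log L + (ε₃ * Real.log L) * l := by ring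
    rw [h2, hε₃L] at h1
    exact h1
  have hel1 : e * l ≤ l := mul_le_of_le_one_left hl0.le he1
  have hLm : L ^ m ≤ Real.exp (C₃ * Real.log L + e / 4 * l) := by
    rw [← Real.exp_log (by positivity : (0 : ℝ) < L ^ m), Real.log_pow]
    exact Real.exp_le_exp.mpr hmL
  have hLm0 : 0 < L ^ m := by positivity
  refine ⟨k, m, G, ?_, hpass, hPG, hG1, ?_, ⟨?_, ?_⟩, ?_⟩
  · -- `J ≤ k`
    by_contra hcon
    rw [not_le] at hcon
    have h1 : Pd d c₀ k ≤ (2 * d) ^ J := by
      refine (hc.Pd_le k).trans ?_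
      apply pow_le_pow_right₀ _ hcon.le
      linarith
    have h2 : Real.exp (1 / 2 * l) ≤ Pd d c₀ k := by
      refine le_trans ?_ hk1
      apply Real.exp_le_exp.mpr
      exact mul_le_mul_of_nonneg_right (by linarith) hl0.le
    have h3 : ((2 * d : ℝ)) ^ J < Real.exp (1 / 2 * l) := by
      rw [← Real.exp_log (by positivity : (0 : ℝ) < (2 * d) ^ J), Real.log_pow]
      apply Real.exp_lt_exp.mpr
      linarith
    linarith
  · -- the bound
    rw [← hL]
    have h1 : G * L ^ (m + 1) = Real.exp (Real.log (2 * d) + l + (m + 1) * Real.log L) := by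
      rw [Real.exp_add, Real.exp_add, Real.exp_log (by positivity), hG]
      congr 1
      rw [← Real.exp_log (by positivity : (0 : ℝ) < L ^ (m + 1)), Real.log_pow]
      push_cast
      rfl
    have h2 : r ^ (-(1 + ε)) = Real.exp ((1 + ε) * l) := by
      rw [Real.rpow_def_of_pos hr0]
      congr 1
      rw [hl]
      ring
    rw [h1, h2]
    apply Real.exp_le_exp.mpr
    have h3 : e * l ≤ ε * l := by gcongr
    linarith
  · -- the first condition
    rw [← hL]
    have h1 : 4 * r * L ^ m ≤ Real.exp (Real.log 4 + -l + (C₃ * Real.log L + e / 4 * l)) := by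
      rw [Real.exp_add, Real.exp_add, Real.exp_log (by norm_num), ← hrl]
      gcongr
    refine h1.trans (Real.exp_le_one_iff.mpr ?_)
    linarith
  · -- the second condition
    intro j hkj hj
    rw [← hL]
    obtain ⟨-, -, g3⟩ := hC₂ j
    have hzz : Real.exp (-(Real.log C₂ + ε₂ * j)) ≤ ‖zz d c₀ j‖ := by
      rw [Real.exp_neg, inv_le_iff_one_le_mul₀ (Real.exp_pos _), Real.exp_add,
        Real.exp_log hC₂0, mul_comm]
      exact g3
    have hjN : (j : ℝ) ≤ (N : ℝ) - 1 := by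
      have : j + 1 ≤ N := by omega
      have h1 : ((j + 1 : ℕ) : ℝ) ≤ N := by exact_mod_cast this
      push_cast at h1
      linarith
    have hj1 : χ / 2 * j ≤ Real.log C₂ + 3 / 2 * l := by
      have h1 : χ / 2 * j ≤ (χ - ε₂) * ((N : ℝ) - 1) := by
        have h2 : χ / 2 ≤ χ - ε₂ := by linarith
        have h3 : (0 : ℝ) ≤ j := Nat.cast_nonneg j
        calc χ / 2 * j ≤ (χ - ε₂) * j := by gcongr
          _ ≤ (χ - ε₂) * ((N : ℝ) - 1) := by
              apply mul_le_mul_of_nonneg_left hjN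
              linarith
      have h2 := mul_le_mul_of_nonneg_right hε₁h hl0.le
      linarith
    have hd1 : ((d - 1 : ℕ) : ℝ) = (d : ℝ) - 1 := by
      rw [Nat.cast_sub (by omega), Nat.cast_one]
    have hj2 : ((d : ℝ) - 1) * (ε₂ * j) ≤ 1 / 8 * (Real.log C₂ + 3 / 2 * l) := by
      have h1 : ((d : ℝ) - 1) * (ε₂ * j) = ((d : ℝ) - 1) * ε₁ / 4 * (χ / 2 * j) := by
        rw [hε₂]
        ring
      have h2 : ((d : ℝ) - 1) * ε₁ / 4 ≤ 1 / 8 := by linarith
      have h3 : 0 ≤ ((d : ℝ) - 1) * ε₁ / 4 := by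
        have : 0 ≤ (d : ℝ) - 1 := by linarith
        positivity
      rw [h1]
      calc ((d : ℝ) - 1) * ε₁ / 4 * (χ / 2 * j)
          ≤ ((d : ℝ) - 1) * ε₁ / 4 * (Real.log C₂ + 3 / 2 * l) := by gcongr
        _ ≤ 1 / 8 * (Real.log C₂ + 3 / 2 * l) := by
            apply mul_le_mul_of_nonneg_right h2
            positivity
    have hz : Real.exp (-(d * Real.log C₂ + 3 / 16 * l)) ≤ ‖zz d c₀ j‖ ^ (d - 1) := by
      calc Real.exp (-(d * Real.log C₂ + 3 / 16 * l))
          ≤ Real.exp (((d - 1 : ℕ) : ℝ) * -(Real.log C₂ + ε₂ * j)) := by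
            apply Real.exp_le_exp.mpr
            rw [hd1]
            have h1 : ((d : ℝ) - 1) * -(Real.log C₂ + ε₂ * j) =
                -(((d : ℝ) - 1) * Real.log C₂) - ((d : ℝ) - 1) * (ε₂ * j) := by ring
            rw [h1]
            linarith
        _ = Real.exp (-(Real.log C₂ + ε₂ * j)) ^ (d - 1) := by rw [← Real.exp_nat_mul]
        _ ≤ _ := by gcongr
    refine le_trans ?_ hz
    have hm1 : (m : ℝ) + 1 ≤ L ^ m := by
      have h1 : m + 1 ≤ 2 ^ m := Nat.lt_two_pow_self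
      have h2 : ((m + 1 : ℕ) : ℝ) ≤ ((2 ^ m : ℕ) : ℝ) := by exact_mod_cast h1
      push_cast at h2
      exact h2.trans (by gcongr)
    calc 12 * ((m : ℝ) + 1) * ((d : ℝ) ^ 2 * 3 ^ d) * r * L ^ m
        ≤ 12 * (Real.exp (C₃ * Real.log L + e / 4 * l)) * ((d : ℝ) ^ 2 * 3 ^ d) * r *
          Real.exp (C₃ * Real.log L + e / 4 * l) := by
          have h1 := hm1.trans hLm
          gcongr
      _ = Real.exp (Real.log (12 * ((d : ℝ) ^ 2 * 3 ^ d)) + -l +
          (C₃ * Real.log L + e / 4 * l) + (C₃ * Real.log L + e / 4 * l)) := by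
          have e4 : ∀ a b c : ℝ, Real.exp (a + b + c + c) =
              Real.exp a * Real.exp b * Real.exp c * Real.exp c := by
            intro a b c
            rw [Real.exp_add, Real.exp_add, Real.exp_add]
          rw [e4, Real.exp_log (by positivity), ← hrl]
          ring
      _ ≤ Real.exp (-(d * Real.log C₂ + 3 / 16 * l)) := by
          apply Real.exp_le_exp.mpr
          rw [hc₆] at t7
          linarith
  · -- the last condition
    rw [hkm]
    have h1 : CS < Real.exp (ε₁ * l) := by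
      rw [← Real.exp_log hCS]
      exact Real.exp_lt_exp.mpr t2
    have h2 : Real.exp (ε₁ * l) ≤ r * Pd d c₀ N := by
      calc Real.exp (ε₁ * l) = Real.exp (-l) * Real.exp ((1 + ε₁) * l) := by
            rw [← Real.exp_add]
            congr 1
            ring
        _ ≤ _ := by
            rw [← hrl]
            gcongr
    linarith

end Pool.Agent.Y474.EX
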